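import Mathlib

/-!
# MP_ca3412_nt : five solutions of `x² + A kⁿ = B`

The question asks whether `x² + A kⁿ = B` (`k ≥ 2`, `A, B ≥ 1`) always has at most four
solutions in non-negative integers `(x, n)`.  The answer is no:
`x² + 455 · 2ⁿ = 489626271744` has the five solutions
`(699733, 0), (699392, 20), (698368, 22), (606208, 28), (32768, 30)`.
-/

namespace Pool.Agent.Results.MP_ca3412_nt.FiveSolutions

/-- the set of solutions `(x, n)` in non-negative integers of `x² + A kⁿ = B` -/
def Sol (k A B : ℕ) : Set (ℕ × ℕ) := {p | p.1 ^ 2 + A * k ^ p.2 = B}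

/-- `x² + 455 · 2ⁿ = 489626271744` has five solutions (listed), so it is not true that
`x² + A kⁿ = B` always has at most four solutions. -/
theorem result :
    ({(699733, 0), (699392, 20), (698368, 22), (606208, 28), (32768, 30)} : Set (ℕ × ℕ)) ⊆
        Sol 2 455 489626271744 ∧
      ¬ ∀ k A B : ℕ, 2 ≤ k → 1 ≤ A → 1 ≤ B → (Sol k A B).encard ≤ 4 := by
  have hs0 : ({(699733, 0), (699392, 20), (698368, 22), (606208, 28), (32768, 30)} :
      Set (ℕ × ℕ)) ⊆ Sol 2 455 489626271744 := by
    intro p hp
    simp only [Set.mem_insert_iff, Set.mem_singleton_iff] at hp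
    rcases hp with rfl | rfl | rfl | rfl | rfl <;> norm_num [Sol]
  refine ⟨hs0, ?_⟩
  have h2 : 5 ≤ (Sol 2 455 489626271744).encard := by
    have hs : ((({(699733, 0), (699392, 20), (698368, 22), (606208, 28), (32768, 30)} :
        Finset (ℕ × ℕ)) : Set (ℕ × ℕ))) ⊆ Sol 2 455 489626271744 := by
      intro p hp
      simp only [Finset.coe_insert, Finset.coe_singleton, Set.mem_insert_iff,
        Set.mem_singleton_iff] at hp
      rcases hp with rfl | rfl | rfl | rfl | rfl <;> norm_num [Sol]
    refine le_trans ?_ (Set.encard_le_encard hs)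
    rw [Set.encard_coe_eq_coe_finsetCard]
    decide
  intro h
  have h5 := le_trans h2 (h 2 455 489626271744 (by norm_num) (by norm_num) (by norm_num))
  exact absurd h5 (by decide)

end Pool.Agent.Results.MP_ca3412_nt.FiveSolutions
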